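import Pool.Agent.X195.FR3

/-!
# MP_3fc48d_an: `ψ_b` is a frame wavelet for every `b ∈ (1/8, 1/6]`

`ψ_b` is the function whose Fourier transform is the indicator of `(-1,-b) ∪ (b,1)`. On the Fourier
side the frame inequality is proved scale by scale with two-valued weights; the lower frame bound is
`1/40` and the upper one is `6`.
-/
open MeasureTheory Set Filter
open scoped ENNReal FourierTransform InnerProductSpace ComplexInnerProductSpace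

namespace Pool.Agent.Results.MP_3fc48d_an.FrameForAllB

/-- The set `(-1,-b) ∪ (b,1)`. -/
def band (b : ℝ) : Set ℝ := Ioo (-1) (-b) ∪ Ioo b 1

theorem measurableSet_band (b : ℝ) : MeasurableSet (band b) := measurableSet_Ioo.union measurableSet_Ioo

theorem volume_band_ne_top (b : ℝ) : volume (band b) ≠ ∞ :=
  (measure_union_lt_top measure_Ioo_lt_top measure_Ioo_lt_top).ne

/-- The function `ψ_b ∈ L²(ℝ)` whose Fourier transform is the indicator of `(-1,-b) ∪ (b,1)`. -/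
noncomputable def psi (b : ℝ) : Lp ℂ 2 (volume : Measure ℝ) :=
  𝓕⁻ (indicatorConstLp 2 (measurableSet_band b) (volume_band_ne_top b) (1 : ℂ))

/-- `ψ_{j,k}(x) = 2^{j/2} ψ(2^j x - k)`. -/
noncomputable def dil (ψ : ℝ → ℂ) (j k : ℤ) (x : ℝ) : ℂ :=
  (((2:ℝ) ^ ((j:ℝ) / 2) : ℝ) : ℂ) * ψ ((2:ℝ) ^ j * x - (k:ℝ))

/-- `⟨f, ψ_{j,k}⟩` for `m = (j,k)`. -/
noncomputable def coef (ψ f : Lp ℂ 2 (volume : Measure ℝ)) (m : ℤ × ℤ) : ℂ :=
  ∫ x, f x * (starRingEnd ℂ) (dil ψ m.1 m.2 x)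

/-- `ψ` is a frame wavelet. -/
def IsFrameWavelet (ψ : Lp ℂ 2 (volume : Measure ℝ)) : Prop :=
  ∃ A B : ℝ, 0 < A ∧ A ≤ B ∧ ∀ f : Lp ℂ 2 (volume : Measure ℝ),
    Summable (fun m : ℤ × ℤ => ‖coef ψ f m‖ ^ 2) ∧
    A * ‖f‖ ^ 2 ≤ ∑' m : ℤ × ℤ, ‖coef ψ f m‖ ^ 2 ∧
    ∑' m : ℤ × ℤ, ‖coef ψ f m‖ ^ 2 ≤ B * ‖f‖ ^ 2

open Pool.Agent.X195.FR

theorem mem_band {b : ℝ} (hb : 0 ≤ b) (y : ℝ) : y ∈ band b ↔ b < |y| ∧ |y| < 1 := by
  rw [abs_lt, lt_abs]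
  constructor
  · rintro (⟨h1, h2⟩ | ⟨h1, h2⟩)
    · exact ⟨Or.inr (by linarith), h1, by linarith⟩
    · exact ⟨Or.inl h1, by linarith, h2⟩
  · rintro ⟨h1 | h1, h2, h3⟩
    · exact Or.inr ⟨h1, h3⟩
    · exact Or.inl ⟨h2, by linarith⟩

theorem lintegral_sq (F : Lp ℂ 2 (volume : Measure ℝ)) :
    ∫⁻ ξ, ‖F ξ‖ₑ ^ 2 = ENNReal.ofReal (‖F‖ ^ 2) := by
  rw [ENNReal.ofReal_pow (norm_nonneg _), Lp.norm_def,
    ENNReal.ofReal_toReal (Lp.eLpNorm_ne_top F),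
    eLpNorm_eq_lintegral_rpow_enorm_toReal (by norm_num) (by norm_num), ← ENNReal.rpow_natCast,
    ← ENNReal.rpow_mul]
  norm_num

theorem coef_eq {b : ℝ} (hb : 0 ≤ b) (f : Lp ℂ 2 (volume : Measure ℝ)) (j k : ℤ) :
    coef (psi b) f (j, k) = (Real.sqrt ((2:ℝ) ^ j)⁻¹ : ℂ) *
      ∫ ξ, ch ((2:ℝ) ^ j) k ξ * (Sb b ((2:ℝ) ^ j)).indicator
        (𝓕 f : Lp ℂ 2 (volume : Measure ℝ)) ξ := by
  set T : ℝ := (2:ℝ) ^ j with hT
  have hT0 : 0 < T := by positivity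
  obtain ⟨A, _, hA⟩ := Pool.Agent.Helper152.WavFour.exists_op T (-(k:ℝ)) hT0
    (fun _ => (((2:ℝ) ^ ((j:ℝ) / 2) : ℝ) : ℂ)) continuous_const _ (fun _ => le_rfl)
  set u : Lp ℂ 2 (volume : Measure ℝ) := A (psi b) with hu
  have hu1 : (⇑u : ℝ → ℂ) =ᵐ[volume] dil (psi b) j k := by
    filter_upwards [hA (psi b)] with x hx
    rw [hx, dil, sub_eq_add_neg]
  have h1 : coef (psi b) f (j, k) = ⟪u, f⟫ := by
    rw [L2.inner_def, coef]
    refine integral_congr_ae ?_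
    filter_upwards [hu1] with x hx
    rw [hx, RCLike.inner_apply]
  have h2 : (⇑(𝓕 u : Lp ℂ 2 (volume : Measure ℝ)) : ℝ → ℂ) =ᵐ[volume] fun ξ : ℝ =>
      ((Real.sqrt ((2:ℝ) ^ (-j)) : ℝ) : ℂ) *
          Complex.exp (-(2 * (Real.pi : ℂ) * Complex.I * (k : ℂ) * ((((2:ℝ) ^ (-j)) * ξ : ℝ) : ℂ))) *
          (𝓕 (psi b) : Lp ℂ 2 (volume : Measure ℝ)) (((2:ℝ) ^ (-j)) * ξ) :=
    Pool.Agent.Helper152.WavFour.fourier_dil (psi b) u j k hu1
  have h3 : (𝓕 (psi b) : Lp ℂ 2 (volume : Measure ℝ)) =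
      indicatorConstLp 2 (measurableSet_band b) (volume_band_ne_top b) (1 : ℂ) := by
    rw [psi, FourierTransform.fourier_fourierInv_eq]
  have h4 : (⇑(𝓕 (psi b) : Lp ℂ 2 (volume : Measure ℝ)) : ℝ → ℂ) =ᵐ[volume]
      (band b).indicator (fun _ => (1:ℂ)) := by
    rw [h3]
    exact indicatorConstLp_coeFn
  have hqmp : Measure.QuasiMeasurePreserving (fun x : ℝ => (2:ℝ) ^ (-j) * x) volume volume := by
    refine ⟨by fun_prop, ?_⟩
    rw [Real.map_volume_mul_left (by positivity)]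
    exact Measure.smul_absolutelyContinuous
  have h5 := hqmp.ae_eq_comp h4
  rw [h1, ← Lp.inner_fourier_eq, L2.inner_def, ← integral_const_mul]
  refine integral_congr_ae ?_
  filter_upwards [h2, h5] with ξ h6 h7
  simp only [Function.comp_apply] at h7
  rw [RCLike.inner_apply, h6, h7]
  have hTi : (2:ℝ) ^ (-j) = T⁻¹ := by rw [hT, zpow_neg]
  rw [hTi]
  have hch : (starRingEnd ℂ) (Complex.exp (-(2 * (Real.pi : ℂ) * Complex.I * (k : ℂ) *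
      ((T⁻¹ * ξ : ℝ) : ℂ)))) = ch T k ξ := by
    rw [← Complex.exp_conj, ch]
    congr 1
    simp only [map_neg, map_mul, Complex.conj_ofReal, Complex.conj_I, map_ofNat]
    have : (starRingEnd ℂ) ((k : ℤ) : ℂ) = (k : ℂ) := by
      rw [← Complex.ofReal_intCast, Complex.conj_ofReal]
    rw [this]
    ring
  rw [map_mul, map_mul, hch, Complex.conj_ofReal]
  have hmem : T⁻¹ * ξ ∈ band b ↔ ξ ∈ Sb b T := by
    rw [mem_band hb, abs_mul, abs_of_pos (inv_pos.2 hT0), inv_mul_eq_div, lt_div_iff₀ hT0,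
      div_lt_one hT0]
    rfl
  by_cases h : ξ ∈ Sb b T
  · rw [indicator_of_mem (hmem.2 h), indicator_of_mem h, map_one]
    ring
  · rw [indicator_of_notMem (fun h' => h (hmem.1 h')), indicator_of_notMem h, map_zero]
    ring

/-- `ψ_b` is a frame wavelet for every `b` with `1/8 < b ≤ 1/6`. -/
theorem result (b : ℝ) (hb0 : 1 / 8 < b) (hb : b ≤ 1 / 6) : IsFrameWavelet (psi b) := by
  refine ⟨1 / 40, 6, by norm_num, by norm_num, fun f => ?_⟩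
  set F : Lp ℂ 2 (volume : Measure ℝ) := 𝓕 f with hF
  have hFm : Measurable (F : ℝ → ℂ) := (Lp.stronglyMeasurable F).measurable
  have hFL : MemLp (F : ℝ → ℂ) 2 volume := Lp.memLp F
  have hnorm : ∫⁻ ξ, ‖F ξ‖ₑ ^ 2 = ENNReal.ofReal (‖f‖ ^ 2) := by
    rw [lintegral_sq, hF, Lp.norm_fourier_eq]
  have hfin : ∫⁻ ξ, ‖F ξ‖ₑ ^ 2 ≠ ∞ := by
    rw [hnorm]
    exact ENNReal.ofReal_ne_top
  have htot : ∑' m : ℤ × ℤ, ‖coef (psi b) f m‖ₑ ^ 2 =
      ∑' j : ℤ, ∫⁻ t in Ioo 0 ((2:ℝ) ^ j), ‖Per F b ((2:ℝ) ^ j) t‖ₑ ^ 2 := by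
    rw [ENNReal.tsum_prod']
    refine tsum_congr fun j => ?_
    rw [← parseval hFL (by positivity)]
    exact tsum_congr fun k => by rw [coef_eq (by linarith)]
  have hlow := lower hb0 hb hFm hfin
  have hup := upper (b := b) hb0 hFm
  rw [← htot, hnorm] at hlow hup
  have hupt : 6 * ENNReal.ofReal (‖f‖ ^ 2) ≠ ∞ :=
    ENNReal.mul_ne_top (by norm_num) ENNReal.ofReal_ne_top
  have htt : ∑' m : ℤ × ℤ, ‖coef (psi b) f m‖ₑ ^ 2 ≠ ∞ := ne_top_of_le_ne_top hupt hup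
  have hconv : ∀ m, ‖coef (psi b) f m‖ₑ ^ 2 = ENNReal.ofReal (‖coef (psi b) f m‖ ^ 2) := by
    intro m
    rw [ENNReal.ofReal_pow (norm_nonneg _), ofReal_norm]
  rw [tsum_congr hconv] at htt hlow hup
  have hsum : Summable (fun m : ℤ × ℤ => ‖coef (psi b) f m‖ ^ 2) := by
    have := ENNReal.summable_toReal htt
    refine this.congr fun m => ?_
    rw [ENNReal.toReal_ofReal (sq_nonneg _)]
  rw [← ENNReal.ofReal_tsum_of_nonneg (fun m => sq_nonneg _) hsum] at hlow hup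
  refine ⟨hsum, ?_, ?_⟩
  · rw [← ENNReal.ofReal_mul (by norm_num)] at hlow
    exact (ENNReal.ofReal_le_ofReal_iff (tsum_nonneg fun m => sq_nonneg _)).1 hlow
  · have h6 : (6 : ℝ≥0∞) = ENNReal.ofReal 6 := by norm_num
    rw [h6, ← ENNReal.ofReal_mul (by norm_num)] at hup
    exact (ENNReal.ofReal_le_ofReal_iff (by positivity)).1 hup

end Pool.Agent.Results.MP_3fc48d_an.FrameForAllB
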